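import Mathlib

/-!
Closed ideals of Banach lattices, quotient lattices, projective Banach lattices.
-/

namespace Pool.Agent.Helper20.BL

universe u v

section Lat

variable {X : Type*} [AddCommGroup X] [Lattice X] [IsOrderedAddMonoid X]

theorem inf_add_le_add_inf {a b c : X} (ha : 0 ≤ a) (hb : 0 ≤ b) (hc : 0 ≤ c) :
    a ⊓ (b + c) ≤ a ⊓ b + a ⊓ c := by
  rw [inf_add, le_inf_iff]
  constructor
  · exact inf_le_left.trans (le_add_of_nonneg_right (le_inf ha hc))
  · rw [add_inf, le_inf_iff]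
    exact ⟨inf_le_left.trans (le_add_of_nonneg_left hb), inf_le_right⟩

theorem disj_add {a b c : X} (ha : 0 ≤ a) (hb : 0 ≤ b) (hc : 0 ≤ c) (h1 : a ⊓ b = 0)
    (h2 : a ⊓ c = 0) : a ⊓ (b + c) = 0 := by
  apply le_antisymm
  · have := inf_add_le_add_inf ha hb hc
    rwa [h1, h2, add_zero] at this
  · exact le_inf ha (add_nonneg hb hc)

theorem disj_mono {a b a' b' : X} (ha : 0 ≤ a') (hb : 0 ≤ b') (h : a ⊓ b = 0) (haa : a' ≤ a)
    (hbb : b' ≤ b) : a' ⊓ b' = 0 := by
  apply le_antisymm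
  · rw [← h]; exact inf_le_inf haa hbb
  · exact le_inf ha hb

theorem abs_add_of_disj {a b : X} (h : |a| ⊓ |b| = 0) : |a + b| = |a| + |b| := by
  apply le_antisymm (abs_add_le a b)
  have h1 : |a| + |b| = |(|a| - |b|)| := by
    have h2 := sup_sub_inf_eq_abs_sub |b| |a|
    have h3 := inf_add_sup |b| |a|
    rw [inf_comm, h, sub_zero] at h2
    rw [inf_comm, h, zero_add] at h3
    rw [← h2, h3, add_comm]
  rw [h1]
  have h4 := abs_abs_sub_abs_le a (-b)
  rwa [abs_neg, sub_neg_eq_add] at h4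

theorem sup_eq_add_of_disj {a b : X} (h : a ⊓ b = 0) : a + b = a ⊔ b := by
  have := inf_add_sup a b
  rw [h, zero_add] at this
  exact this.symm

variable [Module ℝ X] [IsOrderedModule ℝ X]

theorem disj_smul {a b : X} (ha : 0 ≤ a) (hb : 0 ≤ b) (h : a ⊓ b = 0) {t : ℝ} (ht : 0 ≤ t) :
    a ⊓ (t • b) = 0 := by
  have h1 : a ≤ max t 1 • a := by
    calc a = (1 : ℝ) • a := (one_smul _ _).symm
      _ ≤ max t 1 • a := smul_le_smul_of_nonneg_right (le_max_right _ _) ha
  have h2 : t • b ≤ max t 1 • b := smul_le_smul_of_nonneg_right (le_max_left _ _) hb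
  have hm : (0 : ℝ) < max t 1 := lt_of_lt_of_le one_pos (le_max_right _ _)
  refine disj_mono ha (smul_nonneg ht hb) (a := max t 1 • a) (b := max t 1 • b) ?_ h1 h2
  apply le_antisymm
  · have h3 : (max t 1)⁻¹ • (max t 1 • a ⊓ max t 1 • b) ≤ 0 := by
      rw [← h, le_inf_iff]
      constructor
      · calc (max t 1)⁻¹ • (max t 1 • a ⊓ max t 1 • b) ≤ (max t 1)⁻¹ • (max t 1 • a) :=
              smul_le_smul_of_nonneg_left inf_le_left (inv_nonneg.mpr hm.le)
          _ = a := inv_smul_smul₀ hm.ne' a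
      · calc (max t 1)⁻¹ • (max t 1 • a ⊓ max t 1 • b) ≤ (max t 1)⁻¹ • (max t 1 • b) :=
              smul_le_smul_of_nonneg_left inf_le_right (inv_nonneg.mpr hm.le)
          _ = b := inv_smul_smul₀ hm.ne' b
    have h4 := smul_le_smul_of_nonneg_left h3 hm.le
    rwa [smul_inv_smul₀ hm.ne', smul_zero] at h4
  · exact le_inf (smul_nonneg hm.le ha) (smul_nonneg hm.le hb)

theorem disj_smul' {a b : X} (ha : 0 ≤ a) (hb : 0 ≤ b) (h : a ⊓ b = 0) {t : ℝ} (ht : 0 ≤ t) :
    (t • a) ⊓ b = 0 := by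
  rw [inf_comm]
  exact disj_smul hb ha (by rw [inf_comm]; exact h) ht

end Lat

section Quot

variable {X : Type u} [NormedAddCommGroup X] [NormedSpace ℝ X] [Lattice X]

/-- A closed ideal of a Banach lattice `X`: a closed linear subspace `J` such that
`|x| ≤ |y|` and `y ∈ J` imply `x ∈ J`. -/
structure ClosedIdeal (X : Type u) [NormedAddCommGroup X] [NormedSpace ℝ X] [Lattice X] where
  toSubmodule : Submodule ℝ X
  solid : ∀ x y : X, |x| ≤ |y| → y ∈ toSubmodule → x ∈ toSubmodule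
  closed : IsClosed (toSubmodule : Set X)

instance (J : ClosedIdeal X) : IsClosed (J.toSubmodule : Set X) := J.closed

variable [IsOrderedAddMonoid X] (J : ClosedIdeal X)

/-- The quotient map `X → X / J`. -/
abbrev qmk : X → X ⧸ J.toSubmodule := Submodule.Quotient.mk

variable {J}

theorem qmk_eq_iff {x y : X} : qmk J x = qmk J y ↔ x - y ∈ J.toSubmodule :=
  Submodule.Quotient.eq _

theorem qmk_surjective : Function.Surjective (qmk J) := Submodule.Quotient.mk_surjective _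

theorem mem_of_abs_le {x j : X} (hj : j ∈ J.toSubmodule) (h : |x| ≤ j) : x ∈ J.toSubmodule :=
  J.solid x j (h.trans (le_abs_self j)) hj

theorem abs_mem {j : X} (hj : j ∈ J.toSubmodule) : |j| ∈ J.toSubmodule :=
  J.solid _ j (by rw [abs_abs]) hj

/-- The order of `X / J`: a class is below another one if they have representatives `x ≤ y`. -/
instance quotLE : LE (X ⧸ J.toSubmodule) :=
  ⟨fun q q' => ∃ x y : X, qmk J x = q ∧ qmk J y = q' ∧ x ≤ y⟩

theorem qmk_le_iff {x y : X} : qmk J x ≤ qmk J y ↔ ∃ j ∈ J.toSubmodule, 0 ≤ j ∧ x ≤ y + j := by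
  constructor
  · rintro ⟨x', y', hx, hy, hxy⟩
    rw [qmk_eq_iff] at hx hy
    refine ⟨|y' - y| + |x' - x|, J.toSubmodule.add_mem (abs_mem hy) (abs_mem hx),
      add_nonneg (abs_nonneg _) (abs_nonneg _), ?_⟩
    calc x = x' - (x' - x) := by abel
      _ ≤ y' - (x' - x) := sub_le_sub_right hxy _
      _ = y + ((y' - y) + -(x' - x)) := by abel
      _ ≤ y + (|y' - y| + |x' - x|) := by
          gcongr
          · exact le_abs_self _
          · exact neg_le_abs _
  · rintro ⟨j, hj, _, h⟩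
    refine ⟨x, y + j, rfl, ?_, h⟩
    rw [qmk_eq_iff]
    simpa using hj

/-- The supremum on `X / J`. -/
instance quotMax : Max (X ⧸ J.toSubmodule) :=
  ⟨Quotient.map₂ (fun x y => x ⊔ y) (by
    intro x x' hx y y' hy
    have hx' : qmk J x = qmk J x' := Quotient.sound hx
    have hy' : qmk J y = qmk J y' := Quotient.sound hy
    have : qmk J (x ⊔ y) = qmk J (x' ⊔ y') := by
      rw [qmk_eq_iff] at hx' hy' ⊢
      have h1 : x ⊔ y - x' ⊔ y' = ((x ⊔ y) - (x' ⊔ y)) + ((x' ⊔ y) - (x' ⊔ y')) := by abel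
      rw [h1]
      refine J.toSubmodule.add_mem ?_ ?_
      · exact J.solid _ _ (by simpa using abs_sup_sub_sup_le_abs x x' y) hx'
      · rw [sup_comm x' y, sup_comm x' y']
        exact J.solid _ _ (by simpa using abs_sup_sub_sup_le_abs y y' x') hy'
    exact Quotient.exact this)⟩

/-- The infimum on `X / J`. -/
instance quotMin : Min (X ⧸ J.toSubmodule) :=
  ⟨Quotient.map₂ (fun x y => x ⊓ y) (by
    intro x x' hx y y' hy
    have hx' : qmk J x = qmk J x' := Quotient.sound hx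
    have hy' : qmk J y = qmk J y' := Quotient.sound hy
    have : qmk J (x ⊓ y) = qmk J (x' ⊓ y') := by
      rw [qmk_eq_iff] at hx' hy' ⊢
      have h1 : x ⊓ y - x' ⊓ y' = ((x ⊓ y) - (x' ⊓ y)) + ((x' ⊓ y) - (x' ⊓ y')) := by abel
      rw [h1]
      refine J.toSubmodule.add_mem ?_ ?_
      · exact J.solid _ _ (by simpa using abs_inf_sub_inf_le_abs x x' y) hx'
      · rw [inf_comm x' y, inf_comm x' y']
        exact J.solid _ _ (by simpa using abs_inf_sub_inf_le_abs y y' x') hy'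
    exact Quotient.exact this)⟩

theorem qmk_sup (x y : X) : qmk J (x ⊔ y) = qmk J x ⊔ qmk J y := rfl

theorem qmk_inf (x y : X) : qmk J (x ⊓ y) = qmk J x ⊓ qmk J y := rfl

/-- The lattice structure of `X / J`. -/
instance quotLattice : Lattice (X ⧸ J.toSubmodule) where
  le_refl q := by
    obtain ⟨x, rfl⟩ := qmk_surjective q
    exact ⟨x, x, rfl, rfl, le_refl x⟩
  le_trans p q r hpq hqr := by
    obtain ⟨x, rfl⟩ := qmk_surjective p
    obtain ⟨y, rfl⟩ := qmk_surjective q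
    obtain ⟨z, rfl⟩ := qmk_surjective r
    rw [qmk_le_iff] at hpq hqr ⊢
    obtain ⟨j, hj, hj0, h⟩ := hpq
    obtain ⟨k, hk, hk0, h'⟩ := hqr
    refine ⟨k + j, J.toSubmodule.add_mem hk hj, add_nonneg hk0 hj0, ?_⟩
    calc x ≤ y + j := h
      _ ≤ (z + k) + j := by gcongr
      _ = z + (k + j) := by abel
  le_antisymm p q hpq hqp := by
    obtain ⟨x, rfl⟩ := qmk_surjective p
    obtain ⟨y, rfl⟩ := qmk_surjective q
    rw [qmk_le_iff] at hpq hqp
    obtain ⟨j, hj, hj0, h⟩ := hpq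
    obtain ⟨k, hk, hk0, h'⟩ := hqp
    rw [qmk_eq_iff]
    apply mem_of_abs_le (J.toSubmodule.add_mem hj hk)
    rw [abs_le']
    constructor
    · calc x - y ≤ j := by rw [sub_le_iff_le_add']; exact h
        _ ≤ j + k := le_add_of_nonneg_right hk0
    · calc -(x - y) = y - x := by abel
        _ ≤ k := by rw [sub_le_iff_le_add']; exact h'
        _ ≤ j + k := le_add_of_nonneg_left hj0
  sup := (· ⊔ ·)
  le_sup_left p q := by
    obtain ⟨x, rfl⟩ := qmk_surjective p
    obtain ⟨y, rfl⟩ := qmk_surjective q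
    exact ⟨x, x ⊔ y, rfl, rfl, le_sup_left⟩
  le_sup_right p q := by
    obtain ⟨x, rfl⟩ := qmk_surjective p
    obtain ⟨y, rfl⟩ := qmk_surjective q
    exact ⟨y, x ⊔ y, rfl, rfl, le_sup_right⟩
  sup_le p q r hpr hqr := by
    obtain ⟨x, rfl⟩ := qmk_surjective p
    obtain ⟨y, rfl⟩ := qmk_surjective q
    obtain ⟨z, rfl⟩ := qmk_surjective r
    show qmk J (x ⊔ y) ≤ qmk J z
    rw [qmk_le_iff] at hpr hqr ⊢
    obtain ⟨j, hj, hj0, h⟩ := hpr
    obtain ⟨k, hk, hk0, h'⟩ := hqr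
    refine ⟨j + k, J.toSubmodule.add_mem hj hk, add_nonneg hj0 hk0, sup_le ?_ ?_⟩
    · exact h.trans (by gcongr; exact le_add_of_nonneg_right hk0)
    · exact h'.trans (by gcongr; exact le_add_of_nonneg_left hj0)
  inf := (· ⊓ ·)
  inf_le_left p q := by
    obtain ⟨x, rfl⟩ := qmk_surjective p
    obtain ⟨y, rfl⟩ := qmk_surjective q
    exact ⟨x ⊓ y, x, rfl, rfl, inf_le_left⟩
  inf_le_right p q := by
    obtain ⟨x, rfl⟩ := qmk_surjective p
    obtain ⟨y, rfl⟩ := qmk_surjective q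
    exact ⟨x ⊓ y, y, rfl, rfl, inf_le_right⟩
  le_inf p q r hpq hpr := by
    obtain ⟨x, rfl⟩ := qmk_surjective p
    obtain ⟨y, rfl⟩ := qmk_surjective q
    obtain ⟨z, rfl⟩ := qmk_surjective r
    show qmk J x ≤ qmk J (y ⊓ z)
    rw [qmk_le_iff] at hpq hpr ⊢
    obtain ⟨j, hj, hj0, h⟩ := hpq
    obtain ⟨k, hk, hk0, h'⟩ := hpr
    refine ⟨j + k, J.toSubmodule.add_mem hj hk, add_nonneg hj0 hk0, ?_⟩
    rw [inf_add]
    refine le_inf (h.trans ?_) (h'.trans ?_)
    · gcongr; exact le_add_of_nonneg_right hk0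
    · gcongr; exact le_add_of_nonneg_left hj0

instance : IsOrderedAddMonoid (X ⧸ J.toSubmodule) where
  add_le_add_left p q h r := by
    obtain ⟨x, rfl⟩ := qmk_surjective p
    obtain ⟨y, rfl⟩ := qmk_surjective q
    obtain ⟨z, rfl⟩ := qmk_surjective r
    rw [qmk_le_iff] at h
    obtain ⟨j, hj, hj0, h⟩ := h
    show qmk J (x + z) ≤ qmk J (y + z)
    rw [qmk_le_iff]
    refine ⟨j, hj, hj0, ?_⟩
    calc x + z ≤ (y + j) + z := by gcongr
      _ = y + z + j := by abel

theorem qmk_abs (x : X) : qmk J |x| = |qmk J x| := rfl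

end Quot

/-- Banach lattices: the norm is complete, the order is compatible with the vector space
structure, and `|x| ≤ |y|` implies `‖x‖ ≤ ‖y‖`. -/
class IsBanachLattice (X : Type*) [NormedAddCommGroup X] [NormedSpace ℝ X] [Lattice X] : Prop
    extends IsOrderedAddMonoid X, IsOrderedModule ℝ X, HasSolidNorm X, CompleteSpace X

/-- `T` preserves finite suprema and infima. -/
def IsLatticeHom {X Y : Type*} [Lattice X] [Lattice Y] (T : X → Y) : Prop :=
  ∀ x y, T (x ⊔ y) = T x ⊔ T y ∧ T (x ⊓ y) = T x ⊓ T y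

/-- `T'` is a lattice homomorphism into `X` that lifts `T : P → X / J`. -/
def IsLift {P : Type v} [NormedAddCommGroup P] [NormedSpace ℝ P] [Lattice P] {X : Type u}
    [NormedAddCommGroup X] [NormedSpace ℝ X] [Lattice X] {J : ClosedIdeal X}
    (T : P →L[ℝ] X ⧸ J.toSubmodule) (T' : P →L[ℝ] X) : Prop :=
  IsLatticeHom T' ∧ ∀ x, Submodule.Quotient.mk (T' x) = T x

/-- A Banach lattice `P` is projective (in the isometric sense) if for every Banach lattice `X`,
every closed ideal `J` of `X`, every lattice homomorphism `T : P → X / J` and every `ε > 0` there is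
a lattice homomorphism `T' : P → X` lifting `T` with `‖T'‖ ≤ (1 + ε) ‖T‖`. -/
def IsProjective (P : Type v) [NormedAddCommGroup P] [NormedSpace ℝ P] [Lattice P] : Prop :=
  ∀ (X : Type u) [NormedAddCommGroup X] [NormedSpace ℝ X] [Lattice X] [IsBanachLattice X]
    (J : ClosedIdeal X) (T : P →L[ℝ] X ⧸ J.toSubmodule), IsLatticeHom T → ∀ ε : ℝ, 0 < ε →
    ∃ T' : P →L[ℝ] X, IsLift T T' ∧ ‖T'‖ ≤ (1 + ε) * ‖T‖

/-- Dedekind completeness. -/
def DedekindComplete (P : Type*) [Lattice P] : Prop :=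
  ∀ S : Set P, S.Nonempty → BddAbove S → ∃ y, IsLUB S y

/-- There is a linear bijection `φ` of `P` onto the `ℓ¹`-sum of the `E i` (the space of all families
`f` with `f i ∈ E i` and `∑ ‖f i‖ < ∞`) that is an isomorphism for the order of `P` and the
coordinatewise order, with `∑ ‖φ x i‖ ≤ a ‖x‖` and `‖x‖ ≤ b ∑ ‖φ x i‖` for all `x`. -/
def L1SumIso (P : Type*) [NormedAddCommGroup P] [NormedSpace ℝ P] [Lattice P]
    {ι : Type*} (E : ι → Type*) [∀ i, NormedAddCommGroup (E i)] [∀ i, NormedSpace ℝ (E i)]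
    [∀ i, Lattice (E i)] (a b : ℝ) : Prop :=
  ∃ φ : P →ₗ[ℝ] (∀ i, E i), (∀ f, f ∈ Set.range φ ↔ Summable fun i => ‖f i‖) ∧
    (∀ x y, x ≤ y ↔ φ x ≤ φ y) ∧ (∀ x, ∑' i, ‖φ x i‖ ≤ a * ‖x‖) ∧
    ∀ x, ‖x‖ ≤ b * ∑' i, ‖φ x i‖

end Pool.Agent.Helper20.BL
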