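import Pool.Agent.helper20.BL.Lift

namespace Pool.Agent.Helper20.BL

open Filter Topology

/-- The absolutely summable real sequences. -/
def chainSub : Submodule ℝ (ℕ → ℝ) where
  carrier := {x | Summable fun n => |x n|}
  zero_mem' := by simp
  add_mem' := by
    intro x y hx hy
    refine Summable.of_nonneg_of_le (fun n => abs_nonneg _) (fun n => ?_) (hx.add hy)
    exact abs_add_le _ _
  smul_mem' := by
    intro t x hx
    have : (fun n => |(t • x) n|) = fun n => |t| * |x n| := by
      funext n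
      simp [abs_mul]
    show Summable fun n => |(t • x) n|
    rw [this]
    exact hx.mul_left _

/-- The chain space: `ℓ¹` with the norm whose unit ball is generated by the vectors
`e n + e (n + 1)`. -/
def ChainSpace : Type := chainSub

namespace ChainSpace

instance : AddCommGroup ChainSpace := inferInstanceAs (AddCommGroup chainSub)

instance : Module ℝ ChainSpace := inferInstanceAs (Module ℝ chainSub)

theorem summable (x : ChainSpace) : Summable fun n => |x.1 n| := x.2

instance : Lattice ChainSpace :=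
  Subtype.lattice (P := fun x : ℕ → ℝ => x ∈ chainSub)
    (fun x y hx hy => Summable.of_nonneg_of_le (fun n => abs_nonneg _)
      (fun n => by
        show |max (x n) (y n)| ≤ |x n| + |y n|
        rcases max_choice (x n) (y n) with h | h <;> rw [h]
        · exact le_add_of_nonneg_right (abs_nonneg _)
        · exact le_add_of_nonneg_left (abs_nonneg _))
      (Summable.add hx hy))
    (fun x y hx hy => Summable.of_nonneg_of_le (fun n => abs_nonneg _)
      (fun n => by
        show |min (x n) (y n)| ≤ |x n| + |y n|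
        rcases min_choice (x n) (y n) with h | h <;> rw [h]
        · exact le_add_of_nonneg_right (abs_nonneg _)
        · exact le_add_of_nonneg_left (abs_nonneg _))
      (Summable.add hx hy))

theorem le_iff {x y : ChainSpace} : x ≤ y ↔ ∀ n, x.1 n ≤ y.1 n := Iff.rfl

@[simp] theorem add_apply (x y : ChainSpace) (n : ℕ) : (x + y).1 n = x.1 n + y.1 n := rfl
@[simp] theorem neg_apply (x : ChainSpace) (n : ℕ) : (-x).1 n = -x.1 n := rfl
@[simp] theorem sub_apply (x y : ChainSpace) (n : ℕ) : (x - y).1 n = x.1 n - y.1 n := rfl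
@[simp] theorem zero_apply (n : ℕ) : (0 : ChainSpace).1 n = 0 := rfl
@[simp] theorem smul_apply (t : ℝ) (x : ChainSpace) (n : ℕ) : (t • x).1 n = t * x.1 n := rfl
@[simp] theorem sup_apply (x y : ChainSpace) (n : ℕ) : (x ⊔ y).1 n = max (x.1 n) (y.1 n) := rfl
@[simp] theorem inf_apply (x y : ChainSpace) (n : ℕ) : (x ⊓ y).1 n = min (x.1 n) (y.1 n) := rfl
@[simp] theorem abs_apply (x : ChainSpace) (n : ℕ) : |x|.1 n = |x.1 n| := rfl

@[ext] theorem ext {x y : ChainSpace} (h : ∀ n, x.1 n = y.1 n) : x = y :=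
  Subtype.ext (funext h)

instance : IsOrderedAddMonoid ChainSpace where
  add_le_add_left x y h z := fun n => by
    have := h n
    simp only [add_apply]
    show x.1 n + z.1 n ≤ y.1 n + z.1 n
    linarith [show x.1 n ≤ y.1 n from this]

instance : IsOrderedModule ℝ ChainSpace where
  smul_le_smul_of_nonneg_left t ht x y h := fun n => by
    show t * x.1 n ≤ t * y.1 n
    exact mul_le_mul_of_nonneg_left (h n) ht
  smul_le_smul_of_nonneg_right x hx s t hst := fun n => by
    show s * x.1 n ≤ t * x.1 n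
    exact mul_le_mul_of_nonneg_right hst (hx n)

/-- `s` is a cost of `x` if `|x n| ≤ c n + c (n + 1)` for a nonnegative sequence `c` with sum `s`.
-/
def cost (x : ℕ → ℝ) : Set ℝ :=
  {s | ∃ c : ℕ → ℝ, (∀ n, 0 ≤ c n) ∧ (∀ n, |x n| ≤ c n + c (n + 1)) ∧ HasSum c s}

theorem cost_nonneg {x : ℕ → ℝ} {s : ℝ} (hs : s ∈ cost x) : 0 ≤ s := by
  obtain ⟨c, hc, _, h⟩ := hs
  exact h.nonneg hc

theorem abs_le_cost {x : ℕ → ℝ} {s : ℝ} (hs : s ∈ cost x) (n : ℕ) : |x n| ≤ s := by
  obtain ⟨c, hc, hx, h⟩ := hs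
  have h1 := sum_le_hasSum {n, n + 1} (fun i _ => hc i) h
  rw [Finset.sum_pair (Nat.succ_ne_self n).symm] at h1
  exact (hx n).trans h1

theorem tsum_le_cost {x : ℕ → ℝ} {s : ℝ} (hx : Summable fun n => |x n|) (hs : s ∈ cost x) :
    ∑' n, |x n| ≤ 2 * s := by
  obtain ⟨c, hc, hxc, h⟩ := hs
  have h1 : Summable fun n => c (n + 1) := (summable_nat_add_iff 1).mpr h.summable
  have h2 : ∑' n, c (n + 1) ≤ s := by
    have h3 := h.summable.tsum_eq_zero_add
    rw [h.tsum_eq] at h3
    have := hc 0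
    linarith
  calc ∑' n, |x n| ≤ ∑' n, (c n + c (n + 1)) := hx.tsum_le_tsum hxc (h.summable.add h1)
    _ = ∑' n, c n + ∑' n, c (n + 1) := h.summable.tsum_add h1
    _ ≤ s + s := by rw [h.tsum_eq]; linarith
    _ = 2 * s := by ring

theorem bddBelow_cost (x : ℕ → ℝ) : BddBelow (cost x) := ⟨0, fun _ hs => cost_nonneg hs⟩

theorem tsum_mem_cost (x : ChainSpace) : ∑' n, |x.1 n| ∈ cost x.1 :=
  ⟨fun n => |x.1 n|, fun n => abs_nonneg _, fun n => le_add_of_nonneg_right (abs_nonneg _),
    x.summable.hasSum⟩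

/-- The norm of the chain space. -/
noncomputable def nrm (x : ChainSpace) : ℝ := sInf (cost x.1)

theorem nrm_le {x : ChainSpace} {s : ℝ} (hs : s ∈ cost x.1) : nrm x ≤ s :=
  csInf_le (bddBelow_cost _) hs

theorem nrm_nonneg (x : ChainSpace) : 0 ≤ nrm x :=
  le_csInf ⟨_, tsum_mem_cost x⟩ fun _ hs => cost_nonneg hs

theorem exists_cost_lt (x : ChainSpace) {ε : ℝ} (hε : 0 < ε) : ∃ s ∈ cost x.1, s < nrm x + ε :=
  exists_lt_of_csInf_lt ⟨_, tsum_mem_cost x⟩ (lt_add_of_pos_right _ hε)

theorem le_nrm_of_forall {x : ChainSpace} {a : ℝ} (h : ∀ s ∈ cost x.1, a ≤ s) : a ≤ nrm x :=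
  le_csInf ⟨_, tsum_mem_cost x⟩ h

theorem nrm_add_le (x y : ChainSpace) : nrm (x + y) ≤ nrm x + nrm y := by
  refine le_of_forall_pos_le_add fun ε hε => ?_
  obtain ⟨s, hs, hs'⟩ := exists_cost_lt x (half_pos hε)
  obtain ⟨t, ht, ht'⟩ := exists_cost_lt y (half_pos hε)
  have : s + t ∈ cost (x + y).1 := by
    obtain ⟨c, hc, hxc, h⟩ := hs
    obtain ⟨d, hd, hyd, h'⟩ := ht
    refine ⟨fun n => c n + d n, fun n => add_nonneg (hc n) (hd n), fun n => ?_, h.add h'⟩
    have h1 : |(x + y).1 n| ≤ |x.1 n| + |y.1 n| := abs_add_le _ _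
    have h2 := hxc n
    have h3 := hyd n
    linarith
  have := nrm_le this
  linarith

theorem cost_neg (x : ChainSpace) : cost (-x).1 = cost x.1 := by
  unfold cost
  simp

theorem nrm_neg (x : ChainSpace) : nrm (-x) = nrm x := by
  unfold nrm
  rw [cost_neg]

theorem abs_le_nrm (x : ChainSpace) (n : ℕ) : |x.1 n| ≤ nrm x :=
  le_nrm_of_forall fun _ hs => abs_le_cost hs n

theorem nrm_mono {x y : ChainSpace} (h : |x| ≤ |y|) : nrm x ≤ nrm y := by
  apply le_nrm_of_forall
  rintro s ⟨c, hc, hyc, hs⟩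
  apply nrm_le
  exact ⟨c, hc, fun n => (h n).trans (hyc n), hs⟩

theorem nrm_smul_le (t : ℝ) (x : ChainSpace) : nrm (t • x) ≤ |t| * nrm x := by
  refine le_of_forall_pos_le_add fun ε hε => ?_
  obtain ⟨s, hs, hs'⟩ := exists_cost_lt x (ε := ε / (|t| + 1)) (by positivity)
  have h1 : |t| * s ∈ cost (t • x).1 := by
    obtain ⟨c, hc, hxc, h⟩ := hs
    refine ⟨fun n => |t| * c n, fun n => mul_nonneg (abs_nonneg _) (hc n), fun n => ?_,
      h.mul_left _⟩
    rw [smul_apply, abs_mul, ← mul_add]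
    exact mul_le_mul_of_nonneg_left (hxc n) (abs_nonneg _)
  refine (nrm_le h1).trans ?_
  have h2 : |t| * s ≤ |t| * (nrm x + ε / (|t| + 1)) :=
    mul_le_mul_of_nonneg_left hs'.le (abs_nonneg _)
  have h3 : |t| * (ε / (|t| + 1)) ≤ ε := by
    rw [mul_div_assoc']
    rw [div_le_iff₀ (by positivity)]
    nlinarith [abs_nonneg t]
  linarith [mul_add |t| (nrm x) (ε / (|t| + 1))]

noncomputable instance : NormedAddCommGroup ChainSpace :=
  AddGroupNorm.toNormedAddCommGroup
    { toFun := nrm
      map_zero' := le_antisymm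
        (nrm_le ⟨fun _ => 0, fun _ => le_refl _, fun _ => by simp, hasSum_zero⟩) (nrm_nonneg _)
      add_le' := nrm_add_le
      neg' := nrm_neg
      eq_zero_of_map_eq_zero' := fun x hx => by
        ext n
        have h1 := abs_le_nrm x n
        have h2 : nrm x = 0 := hx
        rw [h2] at h1
        exact abs_nonpos_iff.mp h1 }

theorem norm_def (x : ChainSpace) : ‖x‖ = nrm x := rfl

noncomputable instance : NormedSpace ℝ ChainSpace where
  norm_smul_le t x := nrm_smul_le t x

instance : HasSolidNorm ChainSpace := ⟨fun _ _ h => nrm_mono h⟩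

/-- The identity map onto the usual `ℓ¹`. -/
def toLp : ChainSpace ≃ₗ[ℝ] lp (fun _ : ℕ => ℝ) 1 where
  toFun x := ⟨x.1, memℓp_gen (by simpa using x.summable)⟩
  invFun f := ⟨fun n => f n, by
    have h := (memℓp_gen_iff (p := 1) (by simp)).mp (lp.memℓp f)
    show Summable fun n => |f n|
    simpa using h⟩
  map_add' x y := rfl
  map_smul' t x := rfl
  left_inv x := rfl
  right_inv f := rfl

theorem norm_toLp (x : ChainSpace) : ‖toLp x‖ = ∑' n, |x.1 n| := by
  rw [lp.norm_eq_tsum_rpow (by simp)]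
  simp only [ENNReal.toReal_one, Real.rpow_one, div_one, Real.norm_eq_abs]
  rfl

/-- The identity map onto the usual `ℓ¹`, as a continuous linear equivalence. -/
noncomputable def toLpL : ChainSpace ≃L[ℝ] lp (fun _ : ℕ => ℝ) 1 :=
  toLp.toContinuousLinearEquivOfBounds 2 1
    (fun x => by
      rw [norm_toLp]
      have h : (1 / 2) * ∑' n, |x.1 n| ≤ nrm x := le_nrm_of_forall fun s hs => by
        have := tsum_le_cost x.summable hs
        linarith
      rw [norm_def]
      linarith)
    (fun f => by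
      rw [one_mul]
      obtain ⟨x, rfl⟩ := toLp.surjective f
      rw [LinearEquiv.symm_apply_apply, norm_toLp]
      exact nrm_le (tsum_mem_cost x))

instance : CompleteSpace ChainSpace :=
  (completeSpace_congr (e := toLpL.toEquiv) toLpL.isUniformEmbedding).mpr inferInstance

/-- The unit vectors. -/
def e (n : ℕ) : ChainSpace :=
  ⟨Pi.single n 1, by
    have : (fun m => |(Pi.single n 1 : ℕ → ℝ) m|) = Pi.single n 1 := by
      funext m
      by_cases h : m = n
      · subst h; simp
      · simp [h]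
    show Summable fun m => |(Pi.single n 1 : ℕ → ℝ) m|
    rw [this]
    exact summable_of_hasFiniteSupport ((Set.finite_singleton n).subset (by
      intro m hm
      by_contra h
      exact hm (Pi.single_eq_of_ne h 1)))⟩

theorem e_apply (n m : ℕ) : (e n).1 m = if m = n then 1 else 0 := by
  show (Pi.single n 1 : ℕ → ℝ) m = _
  by_cases h : m = n
  · subst h; simp
  · simp [h]

theorem e_self (n : ℕ) : (e n).1 n = 1 := by simp [e_apply]

theorem e_nonneg (n : ℕ) : 0 ≤ e n := fun m => by
  show (0 : ℝ) ≤ (e n).1 m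
  rw [e_apply]; split_ifs <;> norm_num

theorem hasSum_e (x : ChainSpace) : HasSum (fun n => x.1 n • e n) x := by
  have h1 := lp.hasSum_single (p := 1) (by simp) (toLpL x)
  have h2 := h1.mapL (toLpL.symm : lp (fun _ : ℕ => ℝ) 1 →L[ℝ] ChainSpace)
  have h3 : (toLpL.symm : lp (fun _ : ℕ => ℝ) 1 →L[ℝ] ChainSpace) (toLpL x) = x :=
    toLpL.symm_apply_apply x
  rw [h3] at h2
  convert h2 using 1
  funext n
  have h4 : toLpL (x.1 n • e n) = lp.single 1 n ((toLpL x) n) := by
    ext m
    show (x.1 n • e n).1 m = lp.single (E := fun _ : ℕ => ℝ) 1 n ((toLpL x) n) m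
    rw [smul_apply, e_apply]
    by_cases h : m = n
    · subst h
      rw [lp.single_apply_self]
      simp only [if_true, mul_one]
      rfl
    · rw [lp.single_apply_ne _ _ _ h]
      simp [h]
  show x.1 n • e n = toLpL.symm (lp.single 1 n ((toLpL x) n))
  rw [← h4, ContinuousLinearEquiv.symm_apply_apply]

theorem one_le_norm_e (n : ℕ) : 1 ≤ ‖e n‖ := by
  have := abs_le_nrm (e n) n
  rw [e_self, abs_one] at this
  exact this

theorem norm_e_add_le (n : ℕ) : ‖e n + e (n + 1)‖ ≤ 1 := by
  apply nrm_le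
  refine ⟨fun m => if m = n + 1 then 1 else 0, fun m => ?_, fun m => ?_, ?_⟩
  · show (0 : ℝ) ≤ if m = n + 1 then 1 else 0
    split_ifs <;> norm_num
  · rw [add_apply, e_apply, e_apply]
    by_cases h1 : m = n
    · subst h1; simp
    · by_cases h2 : m = n + 1
      · subst h2; simp
      · simp [h1, h2]
  · have := hasSum_ite_eq (n + 1) (1 : ℝ)
    simpa using this

theorem norm_e_le (n : ℕ) : ‖e n‖ ≤ 1 := by
  refine le_trans (nrm_mono ?_) (norm_e_add_le n)
  rw [abs_of_nonneg (e_nonneg n), abs_of_nonneg (add_nonneg (e_nonneg n) (e_nonneg _))]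
  exact le_add_of_nonneg_right (e_nonneg _)

theorem e_disj {n m : ℕ} (h : n ≠ m) : e n ⊓ e m = 0 := by
  ext k
  rw [inf_apply, e_apply, e_apply, zero_apply]
  by_cases h1 : k = n
  · subst h1; simp [h]
  · simp only [h1, if_false]
    split_ifs <;> simp

instance : IsBanachLattice ChainSpace where

/-- The chain space is Dedekind complete. -/
theorem dedekind_complete : DedekindComplete ChainSpace := by
  intro S hne hb
  obtain ⟨a, ha⟩ := hne
  obtain ⟨b, hb⟩ := hb
  have hbdd : ∀ n, BddAbove ((fun x : ChainSpace => x.1 n) '' S) := by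
    intro n
    refine ⟨b.1 n, ?_⟩
    rintro _ ⟨x, hx, rfl⟩
    exact hb hx n
  let y : ℕ → ℝ := fun n => sSup ((fun x : ChainSpace => x.1 n) '' S)
  have hy1 : ∀ x ∈ S, ∀ n, x.1 n ≤ y n := fun x hx n => le_csSup (hbdd n) ⟨x, hx, rfl⟩
  have hy2 : ∀ z : ChainSpace, z ∈ upperBounds S → ∀ n, y n ≤ z.1 n := by
    intro z hz n
    refine csSup_le (s := (fun x : ChainSpace => x.1 n) '' S) ⟨a.1 n, a, ha, rfl⟩ ?_
    rintro _ ⟨x, hx, rfl⟩
    exact hz hx n
  have hys : y ∈ chainSub := by
    refine Summable.of_nonneg_of_le (fun n => abs_nonneg _) (fun n => ?_)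
      (a.summable.add b.summable)
    rw [abs_le]
    constructor
    · have h1 := hy1 a ha n
      have h2 := neg_abs_le (a.1 n)
      have h3 := abs_nonneg (b.1 n)
      linarith
    · have h1 := hy2 b hb n
      have h2 := le_abs_self (b.1 n)
      have h3 := abs_nonneg (a.1 n)
      linarith
  exact ⟨⟨y, hys⟩, fun x hx n => hy1 x hx n, fun z hz n => hy2 z hz n⟩

end ChainSpace

end Pool.Agent.Helper20.BL
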