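import Pool.Agent.helper20.BL.ChainProj

namespace Pool.Agent.Helper20.BL

open ChainSpace

universe v w

section

variable {ι : Type w} {E : ι → Type v} [∀ i, NormedAddCommGroup (E i)]

theorem norm_single_add_single [DecidableEq ι] {i j : ι} (hij : i ≠ j) (a : E i) (b : E j) :
    ‖lp.single (E := E) 1 i a + lp.single 1 j b‖ = ‖a‖ + ‖b‖ := by
  have h1 := lp.norm_sum_single (E := E) (p := 1) (by simp)
    (Function.update (Function.update (fun k => (0 : E k)) i a) j b) {i, j}
  rw [Finset.sum_pair hij, Finset.sum_pair hij] at h1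
  simp only [ENNReal.toReal_one, Real.rpow_one, Function.update_self,
    Function.update_of_ne hij] at h1
  exact h1

variable [∀ i, NormedSpace ℝ (E i)] [∀ i, Lattice (E i)]

theorem e_linearIndependent : LinearIndependent ℝ e := by
  have h : LinearIndependent ℝ (fun n : ℕ => (Pi.single n 1 : ℕ → ℝ)) :=
    Pi.linearIndependent_single_one ℕ ℝ
  let S : ChainSpace →ₗ[ℝ] (ℕ → ℝ) :=
    { toFun := fun x => x.1
      map_add' := fun x y => rfl
      map_smul' := fun t x => rfl }
  exact LinearIndependent.of_comp S h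

theorem exists_lp_equiv {P : Type*} [NormedAddCommGroup P] [NormedSpace ℝ P] [Lattice P] {a b : ℝ}
    (h : L1SumIso P E a b) : ∃ φ : P ≃ₗ[ℝ] lp E 1, (∀ x y, x ≤ y ↔ ∀ i, φ x i ≤ φ y i) ∧
      (∀ x, ‖φ x‖ ≤ a * ‖x‖) ∧ ∀ x, ‖x‖ ≤ b * ‖φ x‖ := by
  obtain ⟨ψ, hr, ho, ha, hb⟩ := h
  have hmem : ∀ x, Memℓp (ψ x) 1 := fun x => memℓp_gen (by simpa using (hr (ψ x)).mp ⟨x, rfl⟩)
  let L : P →ₗ[ℝ] lp E 1 :=
    { toFun := fun x => ⟨ψ x, hmem x⟩
      map_add' := fun x y => by
        ext i
        show ψ (x + y) i = ψ x i + ψ y i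
        rw [map_add]; rfl
      map_smul' := fun t x => by
        ext i
        show ψ (t • x) i = t • ψ x i
        rw [map_smul]; rfl }
  have hinj : Function.Injective L := by
    intro x y hxy
    have h1 : ψ x = ψ y := congrArg (fun f : lp E 1 => (f : ∀ i, E i)) hxy
    exact le_antisymm ((ho x y).mpr h1.le) ((ho y x).mpr h1.ge)
  have hsurj : Function.Surjective L := by
    intro f
    have h1 : Summable fun i => ‖f i‖ := by
      have := (memℓp_gen_iff (p := 1) (by simp)).mp (lp.memℓp f)
      simpa using this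
    obtain ⟨x, hx⟩ := (hr f).mpr h1
    exact ⟨x, lp.ext hx⟩
  have hn : ∀ x, ‖L x‖ = ∑' i, ‖ψ x i‖ := by
    intro x
    rw [lp.norm_eq_tsum_rpow (by simp)]
    simp only [ENNReal.toReal_one, Real.rpow_one, div_one]
    rfl
  refine ⟨LinearEquiv.ofBijective L ⟨hinj, hsurj⟩, ho, fun x => ?_, fun x => ?_⟩
  · rw [LinearEquiv.ofBijective_apply, hn]
    exact ha x
  · rw [LinearEquiv.ofBijective_apply, hn]
    exact hb x

/-- Every order isomorphism of the chain space onto an `ℓ¹`-sum of finite-dimensional lattices has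
distortion at least `2`. -/
theorem chain_distortion [∀ i, FiniteDimensional ℝ (E i)] (a b : ℝ)
    (h : L1SumIso ChainSpace E a b) : 2 ≤ a * b := by
  classical
  obtain ⟨φ, hφ, ha, hb⟩ := exists_lp_equiv h
  set f : ℕ → lp E 1 := fun n => φ (e n) with hf
  have hf0 : ∀ n i, 0 ≤ f n i := by
    intro n i
    have h1 := (hφ 0 (e n)).mp (e_nonneg n) i
    rw [map_zero] at h1
    exact h1
  have hfne : ∀ n, f n ≠ 0 := by
    intro n h
    have h1 : e n = 0 := by
      apply φ.injective
      rw [map_zero]; exact h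
    have h2 := e_self n
    rw [h1] at h2
    simp at h2
  -- every `f n` is supported at one coordinate
  have hsupp : ∀ n i j, f n i ≠ 0 → f n j ≠ 0 → i = j := by
    intro n i j hi hj
    by_contra hij
    set g : lp E 1 := lp.single 1 i (f n i) with hg
    have hgi : g i = f n i := lp.single_apply_self _ _ _
    have hgne : ∀ k, k ≠ i → g k = 0 := fun k hk => lp.single_apply_ne _ _ _ hk
    set y : ChainSpace := φ.symm g with hy
    have hφy : φ y = g := φ.apply_symm_apply g
    have hy0 : 0 ≤ y := by
      rw [hφ]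
      intro k
      rw [map_zero, hφy]
      by_cases hk : k = i
      · subst hk; rw [hgi]; exact hf0 n k
      · rw [hgne k hk]; exact le_refl _
    have hye : y ≤ e n := by
      rw [hφ]
      intro k
      rw [hφy]
      by_cases hk : k = i
      · subst hk; rw [hgi]
      · rw [hgne k hk]; exact hf0 n k
    have hyl : y = (y.1 n) • e n := by
      ext m
      rw [ChainSpace.smul_apply, e_apply]
      by_cases hm : m = n
      · subst hm; simp
      · have h1 := hy0 m
        have h2 := hye m
        have h3 : (e n).1 m = 0 := by rw [e_apply]; simp [hm]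
        have h4 : (0 : ChainSpace).1 m ≤ y.1 m := h1
        have h5 : y.1 m ≤ (e n).1 m := h2
        rw [h3] at h5
        rw [ChainSpace.zero_apply] at h4
        simp only [hm, if_false, mul_zero]
        exact le_antisymm h5 h4
    have hgl : g = (y.1 n) • f n := by
      rw [← hφy]
      conv_lhs => rw [hyl]
      rw [map_smul]
    have h6 : g j = 0 := hgne j (fun h => hij h.symm)
    have h7 : g j = (y.1 n) • f n j := by
      conv_lhs => rw [hgl]
      rfl
    rw [h6] at h7
    have h8 : y.1 n = 0 := by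
      rcases smul_eq_zero.mp h7.symm with h | h
      · exact h
      · exact absurd h hj
    have h9 : g i = (y.1 n) • f n i := by
      conv_lhs => rw [hgl]
      rfl
    rw [h8, zero_smul, hgi] at h9
    exact hi h9
  have hexk : ∀ n, ∃ i, f n i ≠ 0 := by
    intro n
    by_contra h
    push Not at h
    exact hfne n (lp.ext (funext h))
  choose k hk using hexk
  have hfk : ∀ n, f n = lp.single 1 (k n) (f n (k n)) := by
    intro n
    ext j
    by_cases hj : j = k n
    · subst hj; rw [lp.single_apply_self]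
    · rw [lp.single_apply_ne _ _ _ hj]
      by_contra h
      exact hj (hsupp n j (k n) h (hk n))
  -- consecutive unit vectors live in different summands at some point
  have hex : ∃ n, k n ≠ k (n + 1) := by
    by_contra h
    push Not at h
    have hconst : ∀ n, k n = k 0 := by
      intro n
      induction n with
      | zero => rfl
      | succ n ih => rw [← h n, ih]
    have hfk' : ∀ n, f n = lp.lsingle (𝕜 := ℝ) 1 (k 0) (f n (k 0)) := by
      intro n
      have := hfk n
      rw [hconst n] at this
      exact this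
    have hli : LinearIndependent ℝ f :=
      e_linearIndependent.map' (φ : ChainSpace →ₗ[ℝ] lp E 1) (LinearEquiv.ker φ)
    have hli2 : LinearIndependent ℝ
        ((lp.lsingle (𝕜 := ℝ) (E := E) 1 (k 0)) ∘ (fun n => f n (k 0))) := by
      have : (lp.lsingle (𝕜 := ℝ) (E := E) 1 (k 0)) ∘ (fun n => f n (k 0)) = f := by
        funext n
        exact (hfk' n).symm
      rw [this]
      exact hli
    have hli3 := LinearIndependent.of_comp _ hli2
    have := hli3.finite
    exact not_finite ℕ
  obtain ⟨n, hn⟩ := hex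
  have hnorm : ‖f n + f (n + 1)‖ = ‖f n‖ + ‖f (n + 1)‖ := by
    rw [hfk n, hfk (n + 1), norm_single_add_single hn]
    rw [lp.norm_single (by simp), lp.norm_single (by simp)]
  have h1 : 1 ≤ b * ‖f n‖ := (one_le_norm_e n).trans (hb (e n))
  have h2 : 1 ≤ b * ‖f (n + 1)‖ := (one_le_norm_e (n + 1)).trans (hb (e (n + 1)))
  have hb0 : 0 < b := by
    by_contra h
    push Not at h
    have : b * ‖f n‖ ≤ 0 := mul_nonpos_of_nonpos_of_nonneg h (norm_nonneg _)
    linarith
  have ha0 : 0 ≤ a := by
    by_contra h
    push Not at h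
    have h3 := ha (e n)
    have h4 : a * ‖e n‖ < 0 := mul_neg_of_neg_of_pos h (lt_of_lt_of_le one_pos (one_le_norm_e n))
    have h5 := norm_nonneg (φ (e n))
    linarith
  have h3 : ‖f n + f (n + 1)‖ ≤ a := by
    have h4 : f n + f (n + 1) = φ (e n + e (n + 1)) := by rw [map_add]
    rw [h4]
    calc ‖φ (e n + e (n + 1))‖ ≤ a * ‖e n + e (n + 1)‖ := ha _
      _ ≤ a * 1 := mul_le_mul_of_nonneg_left (norm_e_add_le n) ha0
      _ = a := mul_one a
  rw [hnorm] at h3
  calc (2 : ℝ) = 1 + 1 := by norm_num
    _ ≤ b * ‖f n‖ + b * ‖f (n + 1)‖ := add_le_add h1 h2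
    _ = b * (‖f n‖ + ‖f (n + 1)‖) := by ring
    _ ≤ b * a := mul_le_mul_of_nonneg_left h3 hb0.le
    _ = a * b := mul_comm _ _

end

end Pool.Agent.Helper20.BL
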