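import Pool.Agent.helper20.BL.Chain

namespace Pool.Agent.Helper20.BL

open Filter Topology ChainSpace

universe u v w

theorem sum_cost_le {X : Type*} [NormedAddCommGroup X] [NormedSpace ℝ X] [Lattice X]
    [IsOrderedAddMonoid X] [IsOrderedModule ℝ X] {w z : ℕ → X} (hw : ∀ k, 0 ≤ w k) (hz0 : ∀ k, 0 ≤ z k)
    (h0 : w 0 ≤ z 0) (h1 : ∀ k, w (k + 1) + w k ≤ z (k + 1))
    {c : ℕ → ℝ} (hc : ∀ n, 0 ≤ c n) (M : ℕ) :
    ∑ n ∈ Finset.range M, (c n + c (n + 1)) • w n ≤ ∑ k ∈ Finset.range (M + 1), c k • z k := by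
  let v : ℕ → X := fun k => match k with
    | 0 => 0
    | k + 1 => w k
  have hv : ∀ k, w k + v k ≤ z k := by
    intro k
    cases k with
    | zero => simpa [v] using h0
    | succ k => exact h1 k
  have hw0 : ∀ M, ∑ n ∈ Finset.range M, (c n + c (n + 1)) • w n
      ≤ ∑ k ∈ Finset.range M, c k • z k + c M • v M := by
    intro M
    induction M with
    | zero => simp [v]
    | succ M ih =>
      rw [Finset.sum_range_succ, Finset.sum_range_succ]
      have h2 : c M • (w M + v M) ≤ c M • z M := smul_le_smul_of_nonneg_left (hv M) (hc M)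
      rw [smul_add] at h2
      have h3 : c (M + 1) • v (M + 1) = c (M + 1) • w M := rfl
      rw [h3, add_smul]
      calc ∑ n ∈ Finset.range M, (c n + c (n + 1)) • w n + (c M • w M + c (M + 1) • w M)
          ≤ (∑ k ∈ Finset.range M, c k • z k + c M • v M) + (c M • w M + c (M + 1) • w M) := by
            gcongr
        _ = ∑ k ∈ Finset.range M, c k • z k + (c M • w M + c M • v M) + c (M + 1) • w M := by
            abel
        _ ≤ ∑ k ∈ Finset.range M, c k • z k + c M • z M + c (M + 1) • w M := by gcongr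
  refine (hw0 M).trans ?_
  rw [Finset.sum_range_succ]
  gcongr
  · exact hc M
  · cases M with
    | zero => exact hz0 0
    | succ M => exact (le_add_of_nonneg_left (hw (M + 1))).trans (h1 M)

theorem map_abs_of_latticeHom {P Y : Type*} [AddCommGroup P] [Lattice P] [AddCommGroup Y]
    [Lattice Y] (T : P → Y) (hneg : ∀ x, T (-x) = -T x) (hT : IsLatticeHom T) (x : P) :
    T |x| = |T x| := by
  have h := (hT x (-x)).1
  rw [hneg] at h
  exact h

/-- The generators of the unit ball: `g 0 = e 0` and `g (k + 1) = e k + e (k + 1)`. -/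
def gen (k : ℕ) : ChainSpace := match k with
  | 0 => e 0
  | k + 1 => e k + e (k + 1)

theorem norm_gen_le (k : ℕ) : ‖gen k‖ ≤ 1 := by
  cases k with
  | zero => exact norm_e_le 0
  | succ k => exact norm_e_add_le k

theorem gen_nonneg (k : ℕ) : 0 ≤ gen k := by
  cases k with
  | zero => exact e_nonneg 0
  | succ k => exact add_nonneg (e_nonneg k) (e_nonneg (k + 1))

theorem e_le_gen (k : ℕ) : e k ≤ gen k := by
  cases k with
  | zero => exact le_refl _
  | succ k => exact le_add_of_nonneg_left (e_nonneg k)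

theorem e_le_gen_succ (k : ℕ) : e k ≤ gen (k + 1) := le_add_of_nonneg_right (e_nonneg (k + 1))

theorem latticeHom_mono {P Y : Type*} [Lattice P] [Lattice Y] {T : P → Y} (hT : IsLatticeHom T)
    {x y : P} (h : x ≤ y) : T x ≤ T y := by
  have h1 := (hT x y).1
  rw [sup_eq_right.mpr h] at h1
  rw [h1]
  exact le_sup_left

/-- The chain space is projective. -/
theorem chain_projective : IsProjective.{u} ChainSpace := by
  intro X _ _ _ _ J T hT ε hε
  by_cases hT0 : ‖T‖ = 0
  · refine ⟨0, ⟨fun x y => by simp, fun x => ?_⟩, ?_⟩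
    · have h1 : ‖T x‖ ≤ ‖T‖ * ‖x‖ := T.le_opNorm x
      rw [hT0, zero_mul] at h1
      have h2 : T x = 0 := norm_le_zero_iff.mp h1
      rw [h2]
      rfl
    · rw [hT0, norm_zero, mul_zero]
  have hTpos : 0 < ‖T‖ := lt_of_le_of_ne T.opNorm_nonneg (Ne.symm hT0)
  set K : ℝ := (1 + ε) * ‖T‖ with hK
  have hKT : ‖T‖ < K := by nlinarith
  have hK0 : 0 < K := by positivity
  have habs : ∀ x, T |x| = |T x| := fun x =>
    map_abs_of_latticeHom T (fun x => map_neg T x) hT x
  have hpos : ∀ x, 0 ≤ x → 0 ≤ T x := by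
    intro x hx
    have := latticeHom_mono hT hx
    rwa [map_zero] at this
  -- disjoint lifts of the `T (e n)`
  obtain ⟨w1, hw10, hw1d, hw1m⟩ := exists_disjoint_lifts (fun n => T (e n))
    (fun n => hpos _ (e_nonneg n)) (fun n m hnm => by
      rw [← (hT (e n) (e m)).2, e_disj hnm, map_zero])
  -- lifts of the generators
  have hz : ∀ k, ∃ z : X, 0 ≤ z ∧ qmk J z = T (gen k) ∧ ‖z‖ ≤ K := by
    intro k
    have h1 : ‖T (gen k)‖ < K := by
      calc ‖T (gen k)‖ ≤ ‖T‖ * ‖gen k‖ := T.le_opNorm _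
        _ ≤ ‖T‖ * 1 := by gcongr; exact norm_gen_le k
        _ < K := by rw [mul_one]; exact hKT
    obtain ⟨z, hz, hzK⟩ := Submodule.Quotient.norm_mk_lt (T (gen k)) (sub_pos.mpr h1)
    have hz' : qmk J z = T (gen k) := hz
    refine ⟨|z|, abs_nonneg z, ?_, ?_⟩
    · rw [qmk_abs, hz', ← habs, abs_of_nonneg (gen_nonneg k)]
    · rw [norm_abs_eq_norm]
      linarith
  choose z hz0 hzm hzK using hz
  set w : ℕ → X := fun n => w1 n ⊓ z n ⊓ z (n + 1) with hw
  have hw0 : ∀ n, 0 ≤ w n := fun n => le_inf (le_inf (hw10 n) (hz0 n)) (hz0 (n + 1))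
  have hwz : ∀ n, w n ≤ z n := fun n => inf_le_left.trans inf_le_right
  have hwz' : ∀ n, w n ≤ z (n + 1) := fun n => inf_le_right
  have hwd : ∀ n m, n ≠ m → w n ⊓ w m = 0 := fun n m hnm =>
    disj_mono (hw0 n) (hw0 m) (hw1d n m hnm) (inf_le_left.trans inf_le_left)
      (inf_le_left.trans inf_le_left)
  have hwm : ∀ n, qmk J (w n) = T (e n) := by
    intro n
    show qmk J (w1 n) ⊓ qmk J (z n) ⊓ qmk J (z (n + 1)) = T (e n)
    rw [hw1m, hzm, hzm, inf_eq_left.mpr (latticeHom_mono hT (e_le_gen n)),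
      inf_eq_left.mpr (latticeHom_mono hT (e_le_gen_succ n))]
  have hwK : ∀ n, ‖w n‖ ≤ K := by
    intro n
    refine le_trans (HasSolidNorm.solid ?_) (hzK n)
    rw [abs_of_nonneg (hw0 n), abs_of_nonneg (hz0 n)]
    exact hwz n
  have hsumm : ∀ x : ChainSpace, Summable fun n => x.1 n • w n := by
    intro x
    refine Summable.of_norm_bounded (x.summable.mul_right K) fun n => ?_
    rw [norm_smul, Real.norm_eq_abs]
    exact mul_le_mul_of_nonneg_left (hwK n) (abs_nonneg _)
  let L : ChainSpace →ₗ[ℝ] X :=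
    { toFun := fun x => ∑' n, x.1 n • w n
      map_add' := fun x y => by
        rw [← (hsumm x).tsum_add (hsumm y)]
        congr 1
        funext n
        rw [ChainSpace.add_apply, add_smul]
      map_smul' := fun t x => by
        rw [RingHom.id_apply, ← (hsumm x).tsum_const_smul]
        congr 1
        funext n
        rw [ChainSpace.smul_apply, mul_smul] }
  have hL : ∀ x, HasSum (fun n => x.1 n • w n) (L x) := fun x => (hsumm x).hasSum
  have hLabs : ∀ x, L |x| = |L x| := by
    intro x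
    have h1 : Tendsto (fun F : Finset ℕ => |∑ n ∈ F, x.1 n • w n|) atTop (𝓝 |L x|) := by
      have hc : Continuous fun y : X => |y| := continuous_id.sup continuous_neg
      exact (hc.tendsto _).comp (hL x)
    have h2 : Tendsto (fun F : Finset ℕ => ∑ n ∈ F, |x|.1 n • w n) atTop (𝓝 (L |x|)) := hL |x|
    have h3 : (fun F : Finset ℕ => |∑ n ∈ F, x.1 n • w n|)
        = fun F : Finset ℕ => ∑ n ∈ F, |x|.1 n • w n := by
      funext F
      exact abs_sum_disj hw0 hwd x.1 F
    rw [h3] at h1
    exact tendsto_nhds_unique h2 h1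
  have hLnorm : ∀ x, ‖L x‖ ≤ K * ‖x‖ := by
    intro x
    have h1 : ∀ s ∈ cost x.1, ‖L x‖ ≤ K * s := by
      rintro s ⟨c, hc, hxc, hs⟩
      have h2 : Tendsto (fun M => ‖∑ n ∈ Finset.range M, x.1 n • w n‖) atTop (𝓝 ‖L x‖) :=
        ((hL x).tendsto_sum_nat).norm
      refine le_of_tendsto h2 (Eventually.of_forall fun M => ?_)
      have h3 : |∑ n ∈ Finset.range M, x.1 n • w n| ≤ |∑ k ∈ Finset.range (M + 1), c k • z k| := by
        rw [abs_sum_disj hw0 hwd x.1]
        refine le_trans ?_ (le_abs_self _)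
        refine le_trans (Finset.sum_le_sum fun n _ => ?_)
          (sum_cost_le hw0 hz0 (hwz 0) (fun k => ?_) hc M)
        · exact smul_le_smul_of_nonneg_right (hxc n) (hw0 n)
        · rw [sup_eq_add_of_disj (hwd _ _ (Nat.succ_ne_self k))]
          exact sup_le (hwz (k + 1)) (hwz' k)
      refine (HasSolidNorm.solid h3).trans ?_
      calc ‖∑ k ∈ Finset.range (M + 1), c k • z k‖ ≤ ∑ k ∈ Finset.range (M + 1), ‖c k • z k‖ :=
            norm_sum_le _ _
        _ ≤ ∑ k ∈ Finset.range (M + 1), K * c k := by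
            apply Finset.sum_le_sum
            intro k _
            rw [norm_smul, Real.norm_of_nonneg (hc k), mul_comm]
            exact mul_le_mul_of_nonneg_right (hzK k) (hc k)
        _ = K * ∑ k ∈ Finset.range (M + 1), c k := by rw [Finset.mul_sum]
        _ ≤ K * s := by
            apply mul_le_mul_of_nonneg_left _ hK0.le
            exact sum_le_hasSum _ (fun i _ => hc i) hs
    have h4 : ‖L x‖ / K ≤ ‖x‖ := by
      rw [norm_def]
      apply le_nrm_of_forall
      intro s hs
      rw [div_le_iff₀ hK0, mul_comm]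
      exact h1 s hs
    rw [div_le_iff₀ hK0, mul_comm] at h4
    exact h4
  refine ⟨L.mkContinuous K hLnorm, ⟨?_, ?_⟩, ?_⟩
  · exact isLatticeHom_of_abs L hLabs
  · intro x
    show qmk J (L x) = T x
    have h1 : HasSum (fun n => x.1 n • T (e n)) (T x) := by
      have := (hasSum_e x).mapL T
      simpa using this
    have h2 : HasSum (fun n => x.1 n • T (e n)) (qmk J (L x)) := by
      have h3 := (hL x).mapL J.toSubmodule.mkQL
      have h4 : (fun n => J.toSubmodule.mkQL (x.1 n • w n)) = fun n => x.1 n • T (e n) := by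
        funext n
        rw [← hwm n]
        rfl
      rw [h4] at h3
      exact h3
    exact h2.unique h1
  · exact L.mkContinuous_norm_le hK0.le hLnorm

end Pool.Agent.Helper20.BL
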