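import Pool.Agent.helper20.BL.Basic

namespace Pool.Agent.Helper20.BL

open Filter Topology

section

variable {X : Type*} [NormedAddCommGroup X] [NormedSpace ℝ X] [Lattice X] [IsOrderedAddMonoid X]
  [IsOrderedModule ℝ X]

instance quotOrderedModule (J : ClosedIdeal X) : IsOrderedModule ℝ (X ⧸ J.toSubmodule) where
  smul_le_smul_of_nonneg_left t ht p q h := by
    obtain ⟨x, rfl⟩ := qmk_surjective p
    obtain ⟨y, rfl⟩ := qmk_surjective q
    rw [qmk_le_iff] at h
    obtain ⟨j, hj, hj0, h⟩ := h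
    show qmk J (t • x) ≤ qmk J (t • y)
    rw [qmk_le_iff]
    refine ⟨t • j, J.toSubmodule.smul_mem t hj, smul_nonneg ht hj0, ?_⟩
    rw [← smul_add]
    exact smul_le_smul_of_nonneg_left h ht
  smul_le_smul_of_nonneg_right q hq s t hst := by
    obtain ⟨x, rfl⟩ := qmk_surjective q
    have h0 : qmk J 0 ≤ qmk J x := hq
    rw [qmk_le_iff] at h0
    obtain ⟨j, hj, hj0, h⟩ := h0
    show qmk J (s • x) ≤ qmk J (t • x)
    rw [qmk_le_iff]
    refine ⟨(t - s) • j, J.toSubmodule.smul_mem _ hj, smul_nonneg (sub_nonneg.mpr hst) hj0, ?_⟩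
    have h1 : 0 ≤ (t - s) • (x + j) := smul_nonneg (sub_nonneg.mpr hst) h
    have h2 : t • x + (t - s) • j = s • x + (t - s) • (x + j) := by
      rw [smul_add, sub_smul t s x]; abel
    rw [h2]
    exact le_add_of_nonneg_right h1

theorem sub_sup_zero_of_disj {Y : Type*} [AddCommGroup Y] [Lattice Y] [IsOrderedAddMonoid Y]
    {a b : Y} (h : a ⊓ b = 0) : (a - b) ⊔ 0 = a := by
  have h1 : a - (b ⊓ a) = (a - b) ⊔ (a - a) := sub_inf b a a
  rw [inf_comm, h, sub_zero, sub_self] at h1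
  exact h1.symm

variable [HasSolidNorm X] {J : ClosedIdeal X}

theorem mem_ideal_of_le {x y : X} (hx : 0 ≤ x) (hxy : x ≤ y) (hy : y ∈ J.toSubmodule) :
    x ∈ J.toSubmodule :=
  mem_of_abs_le hy (by rwa [abs_of_nonneg hx])

theorem inf_sum_mem {y : X} (hy : 0 ≤ y) {f : ℕ → X} (hf : ∀ m, 0 ≤ f m)
    (hyf : ∀ m, y ⊓ f m ∈ J.toSubmodule) (F : Finset ℕ) :
    y ⊓ ∑ m ∈ F, f m ∈ J.toSubmodule := by
  classical
  induction F using Finset.induction_on with
  | empty =>
    rw [Finset.sum_empty, inf_eq_right.mpr hy]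
    exact J.toSubmodule.zero_mem
  | insert a F ha ih =>
    rw [Finset.sum_insert ha]
    have h1 : 0 ≤ ∑ m ∈ F, f m := Finset.sum_nonneg fun m _ => hf m
    exact mem_ideal_of_le (le_inf hy (add_nonneg (hf a) h1))
      (inf_add_le_add_inf hy (hf a) h1) (J.toSubmodule.add_mem (hyf a) ih)

theorem inf_hasSum_mem {y r : X} (hy : 0 ≤ y) {f : ℕ → X} (hf : ∀ m, 0 ≤ f m)
    (hyf : ∀ m, y ⊓ f m ∈ J.toSubmodule) (hr : HasSum f r) : y ⊓ r ∈ J.toSubmodule := by
  have h1 : Tendsto (fun F : Finset ℕ => y ⊓ ∑ m ∈ F, f m) atTop (𝓝 (y ⊓ r)) :=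
    ((continuous_const.inf continuous_id).tendsto r).comp hr
  exact J.closed.mem_of_tendsto h1 (Eventually.of_forall fun F => inf_sum_mem hy hf hyf F)

/-- Disjoint sequences can be lifted to disjoint sequences. -/
theorem exists_disjoint_lifts [CompleteSpace X] (u : ℕ → X ⧸ J.toSubmodule) (hu : ∀ n, 0 ≤ u n)
    (hdisj : ∀ n m, n ≠ m → u n ⊓ u m = 0) :
    ∃ w : ℕ → X, (∀ n, 0 ≤ w n) ∧ (∀ n m, n ≠ m → w n ⊓ w m = 0) ∧ ∀ n, qmk J (w n) = u n := by
  classical
  have hrep : ∀ n, ∃ y : X, 0 ≤ y ∧ qmk J y = u n := by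
    intro n
    obtain ⟨x, hx⟩ := qmk_surjective (J := J) (u n)
    refine ⟨|x|, abs_nonneg x, ?_⟩
    rw [qmk_abs, hx, abs_of_nonneg (hu n)]
  choose y hy0 hyu using hrep
  set c : ℕ → ℝ := fun n => (1 / 2) ^ n / (1 + ‖y n‖) with hc
  have hc0 : ∀ n, 0 < c n := fun n => by
    have := norm_nonneg (y n)
    positivity
  set f : ℕ → X := fun n => c n • y n with hf
  have hf0 : ∀ n, 0 ≤ f n := fun n => smul_nonneg (hc0 n).le (hy0 n)
  have hfn : ∀ n, ‖f n‖ ≤ (1 / 2) ^ n := by
    intro n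
    have h1 := norm_nonneg (y n)
    rw [hf]
    simp only
    rw [norm_smul, Real.norm_of_nonneg (hc0 n).le, hc]
    simp only
    rw [div_mul_eq_mul_div, div_le_iff₀ (by positivity)]
    gcongr
    linarith
  have hsum : Summable f := Summable.of_norm_bounded (summable_geometric_two) hfn
  set s : X := ∑' n, f n with hs
  have hsf : HasSum f s := hsum.hasSum
  set r : ℕ → X := fun n => s - f n with hr
  have hrsum : ∀ n, HasSum (Function.update f n 0) (r n) := by
    intro n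
    have h1 := hsf.update n 0
    have h2 : 0 - f n + s = r n := by
      show 0 - f n + s = s - f n
      abel
    rw [h2] at h1
    exact h1
  have hupd0 : ∀ n m, 0 ≤ Function.update f n 0 m := by
    intro n m
    by_cases h : m = n
    · subst h; simp
    · rw [Function.update_of_ne h]; exact hf0 m
  have hr0 : ∀ n, 0 ≤ r n := fun n => (hrsum n).nonneg (hupd0 n)
  have hrge : ∀ n m, m ≠ n → f m ≤ r n := by
    intro n m hmn
    have h1 := le_hasSum (hrsum n) m (fun k _ => hupd0 n k)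
    rwa [Function.update_of_ne hmn] at h1
  have hyy : ∀ n m, n ≠ m → y n ⊓ y m ∈ J.toSubmodule := by
    intro n m hnm
    have h1 : qmk J (y n ⊓ y m) = qmk J 0 := by
      rw [qmk_inf, hyu, hyu, hdisj n m hnm]; rfl
    rw [qmk_eq_iff, sub_zero] at h1
    exact h1
  have hyr : ∀ n, y n ⊓ r n ∈ J.toSubmodule := by
    intro n
    apply inf_hasSum_mem (hy0 n) (hupd0 n) _ (hrsum n)
    intro m
    by_cases h : m = n
    · subst h
      rw [Function.update_self, inf_eq_right.mpr (hy0 m)]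
      exact J.toSubmodule.zero_mem
    · rw [Function.update_of_ne h]
      have h1 : u n ⊓ (c m • u m) = 0 :=
        disj_smul (hu n) (hu m) (hdisj n m (Ne.symm h)) (hc0 m).le
      have h2 : qmk J (y n ⊓ f m) = qmk J 0 := by
        rw [qmk_inf]
        have h3 : qmk J (f m) = c m • u m := by
          rw [← hyu m]; rfl
        rw [h3, hyu, h1]; rfl
      rw [qmk_eq_iff, sub_zero] at h2
      exact h2
  refine ⟨fun n => (y n - (c n)⁻¹ • r n) ⊔ 0, fun n => le_sup_right, ?_, ?_⟩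
  · intro n m hnm
    set a : X := f n - f m with ha
    have key : ∀ k l, k ≠ l → (y k - (c k)⁻¹ • r k) ⊔ 0 ≤ (c k)⁻¹ • ((f k - f l) ⊔ 0) := by
      intro k l hkl
      apply sup_le
      · have hfk : (c k)⁻¹ • f k = y k := inv_smul_smul₀ (hc0 k).ne' (y k)
        calc y k - (c k)⁻¹ • r k = (c k)⁻¹ • (f k - r k) := by
              conv_rhs => rw [smul_sub, hfk]
          _ ≤ (c k)⁻¹ • (f k - f l) := by
              apply smul_le_smul_of_nonneg_left _ (inv_nonneg.mpr (hc0 k).le)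
              exact sub_le_sub_left (hrge k l hkl.symm) _
          _ ≤ (c k)⁻¹ • ((f k - f l) ⊔ 0) :=
              smul_le_smul_of_nonneg_left le_sup_left (inv_nonneg.mpr (hc0 k).le)
      · exact smul_nonneg (inv_nonneg.mpr (hc0 k).le) le_sup_right
    have h1 := key n m hnm
    have h2 := key m n hnm.symm
    refine disj_mono le_sup_right le_sup_right ?_ h1 h2
    have h3 : ((f n - f m) ⊔ 0) ⊓ ((f m - f n) ⊔ 0) = 0 := by
      have h4 := posPart_inf_negPart_eq_zero (f n - f m)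
      rw [posPart_def, negPart_def, neg_sub] at h4
      exact h4
    exact disj_smul' le_sup_right (smul_nonneg (inv_nonneg.mpr (hc0 m).le) le_sup_right)
      (disj_smul le_sup_right le_sup_right h3 (inv_nonneg.mpr (hc0 m).le))
      (inv_nonneg.mpr (hc0 n).le)
  · intro n
    have h1 : u n ⊓ qmk J (r n) = 0 := by
      have h2 : qmk J (y n ⊓ r n) = qmk J 0 := by
        rw [qmk_eq_iff, sub_zero]; exact hyr n
      rw [qmk_inf, hyu] at h2
      exact h2
    have h3 : 0 ≤ qmk J (r n) := ⟨0, r n, rfl, rfl, hr0 n⟩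
    have h4 : u n ⊓ ((c n)⁻¹ • qmk J (r n)) = 0 :=
      disj_smul (hu n) h3 h1 (inv_nonneg.mpr (hc0 n).le)
    show qmk J ((y n - (c n)⁻¹ • r n) ⊔ 0) = u n
    have h5 : qmk J ((y n - (c n)⁻¹ • r n) ⊔ 0) = (qmk J (y n) - (c n)⁻¹ • qmk J (r n)) ⊔ 0 := rfl
    rw [h5, hyu]
    exact sub_sup_zero_of_disj h4

theorem abs_smul_of_nonneg' {b : X} (hb : 0 ≤ b) (t : ℝ) : |t • b| = |t| • b := by
  rcases le_total 0 t with h | h
  · rw [abs_of_nonneg (smul_nonneg h hb), abs_of_nonneg h]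
  · rw [abs_of_nonpos h]
    have h1 : t • b = -((-t) • b) := by rw [neg_smul, neg_neg]
    rw [h1, abs_neg, abs_of_nonneg (smul_nonneg (neg_nonneg.mpr h) hb)]

/-- `∑ |x n| w n` is the absolute value of `∑ x n w n` for disjoint `w`. -/
theorem abs_sum_disj {w : ℕ → X} (hw0 : ∀ n, 0 ≤ w n) (hw : ∀ n m, n ≠ m → w n ⊓ w m = 0)
    (x : ℕ → ℝ) (F : Finset ℕ) : |∑ n ∈ F, x n • w n| = ∑ n ∈ F, |x n| • w n := by
  classical
  induction F using Finset.induction_on with
  | empty => simp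
  | insert a F ha ih =>
    rw [Finset.sum_insert ha, Finset.sum_insert ha]
    have h1 : |x a • w a| = |x a| • w a := abs_smul_of_nonneg' (hw0 a) (x a)
    have h2 : w a ⊓ ∑ n ∈ F, |x n| • w n = 0 := by
      clear ih
      induction F using Finset.induction_on with
      | empty => rw [Finset.sum_empty]; exact inf_eq_right.mpr (hw0 a)
      | insert b F hb ih2 =>
        rw [Finset.sum_insert hb]
        rw [Finset.mem_insert, not_or] at ha
        apply disj_add (hw0 a) (smul_nonneg (abs_nonneg _) (hw0 b))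
          (Finset.sum_nonneg fun n _ => smul_nonneg (abs_nonneg _) (hw0 n))
        · exact disj_smul (hw0 a) (hw0 b) (hw a b ha.1) (abs_nonneg _)
        · exact ih2 ha.2
    have h3 : |x a • w a| ⊓ |∑ n ∈ F, x n • w n| = 0 := by
      rw [h1, ih]
      exact disj_smul' (hw0 a)
        (Finset.sum_nonneg fun n _ => smul_nonneg (abs_nonneg _) (hw0 n)) h2 (abs_nonneg _)
    rw [abs_add_of_disj h3, h1, ih]

theorem isLatticeHom_of_abs {P : Type*} [AddCommGroup P] [Lattice P] [IsOrderedAddMonoid P]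
    [Module ℝ P] [IsOrderedModule ℝ P] (T : P →ₗ[ℝ] X) (hT : ∀ x, T |x| = |T x|) :
    IsLatticeHom T := by
  intro x y
  constructor
  · rw [sup_eq_half_smul_add_add_abs_sub' ℝ, sup_eq_half_smul_add_add_abs_sub' ℝ, map_smul,
      map_add, map_add, hT, map_sub]
  · rw [inf_eq_half_smul_add_sub_abs_sub' ℝ, inf_eq_half_smul_add_sub_abs_sub' ℝ, map_smul,
      map_sub, map_add, hT, map_sub]

end

end Pool.Agent.Helper20.BL
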